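import Mathlib

set_option autoImplicit false

namespace Pool.Agent.E8helper7.RM

open MeasureTheory

variable {E : Type} [Fintype E] [DecidableEq E]

/-- Replace the coordinates in `S` by those of `w`. -/
def mg (S : Finset E) (x w : E → ℝ) : E → ℝ := fun s => if s ∈ S then w s else x s

/-- The product law. -/
noncomputable abbrev pl (E : Type) [Fintype E] (μ : Measure ℝ) : Measure (E → ℝ) :=
  Measure.pi fun _ : E => μ

variable (μ : Measure ℝ) [IsProbabilityMeasure μ]

lemma mp_swap (S : Finset E) : MeasurePreserving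
    (fun p : (E → ℝ) × (E → ℝ) => (mg S p.1 p.2, mg S p.2 p.1))
    ((pl E μ).prod (pl E μ)) ((pl E μ).prod (pl E μ)) := by
  have h := measurePreserving_arrowProdEquivProdArrow ℝ ℝ E (fun _ => μ) (fun _ => μ)
  have h2 := measurePreserving_pi (fun _ : E => μ.prod μ) (fun _ : E => μ.prod μ)
    (f := fun s => if s ∈ S then Prod.swap else id) (fun s => by
      by_cases hs : s ∈ S
      · simp only [hs, if_true]
        exact Measure.measurePreserving_swap
      · simp only [hs, if_false]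
        exact MeasurePreserving.id _)
  have h3 := (h.comp h2).comp (h.symm (MeasurableEquiv.arrowProdEquivProdArrow ℝ ℝ E))
  convert h3 using 1
  funext p
  refine Prod.ext ?_ ?_
  · funext s
    by_cases hs : s ∈ S
    · simp [mg, hs, MeasurableEquiv.arrowProdEquivProdArrow, Equiv.arrowProdEquivProdArrow]
    · simp [mg, hs, MeasurableEquiv.arrowProdEquivProdArrow, Equiv.arrowProdEquivProdArrow]
  · funext s
    by_cases hs : s ∈ S
    · simp [mg, hs, MeasurableEquiv.arrowProdEquivProdArrow, Equiv.arrowProdEquivProdArrow]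
    · simp [mg, hs, MeasurableEquiv.arrowProdEquivProdArrow, Equiv.arrowProdEquivProdArrow]

lemma mp_merge (S : Finset E) : MeasurePreserving
    (fun p : (E → ℝ) × (E → ℝ) => mg S p.1 p.2)
    ((pl E μ).prod (pl E μ)) (pl E μ) :=
  measurePreserving_fst.comp (mp_swap μ S)

/-- measurable and bounded -/
def Nice (f : (E → ℝ) → ℝ) : Prop := Measurable f ∧ ∃ C : ℝ, ∀ x, |f x| ≤ C

lemma Nice.sub {f g : (E → ℝ) → ℝ} (hf : Nice f) (hg : Nice g) : Nice (fun x => f x - g x) := by
  obtain ⟨h1, C, h2⟩ := hf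
  obtain ⟨h3, D, h4⟩ := hg
  exact ⟨h1.sub h3, C + D, fun x => (abs_sub _ _).trans (add_le_add (h2 x) (h4 x))⟩

lemma Nice.mul {f g : (E → ℝ) → ℝ} (hf : Nice f) (hg : Nice g) : Nice (fun x => f x * g x) := by
  obtain ⟨h1, C, h2⟩ := hf
  obtain ⟨h3, D, h4⟩ := hg
  refine ⟨h1.mul h3, C * D, fun x => ?_⟩
  rw [abs_mul]
  exact mul_le_mul (h2 x) (h4 x) (abs_nonneg _) ((abs_nonneg _).trans (h2 x))

lemma Nice.int {f : (E → ℝ) → ℝ} (hf : Nice f) : Integrable f (pl E μ) := by
  obtain ⟨h1, C, h2⟩ := hf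
  exact Integrable.of_bound h1.aestronglyMeasurable C (ae_of_all _ fun x => by
    rw [Real.norm_eq_abs]; exact h2 x)

lemma mg_meas (S : Finset E) :
    Measurable (fun p : (E → ℝ) × (E → ℝ) => mg S p.1 p.2) :=
  (mp_merge (Measure.dirac 0) S).measurable

/-- Integrate out the coordinates in `S`. -/
noncomputable def Op (S : Finset E) (f : (E → ℝ) → ℝ) (x : E → ℝ) : ℝ :=
  ∫ w, f (mg S x w) ∂(pl E μ)

lemma Op_nice {f : (E → ℝ) → ℝ} (hf : Nice f) (S : Finset E) : Nice (Op μ S f) := by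
  obtain ⟨h1, C, h2⟩ := hf
  refine ⟨(h1.comp (mg_meas S)).stronglyMeasurable.integral_prod_right'.measurable, C, fun x => ?_⟩
  unfold Op
  rw [← Real.norm_eq_abs]
  refine (norm_integral_le_of_norm_le_const (C := C) (ae_of_all _ fun w => ?_)).trans ?_
  · rw [Real.norm_eq_abs]; exact h2 _
  · simp

/-- the two-copy form -/
noncomputable def QF (S : Finset E) (f g : (E → ℝ) → ℝ) : ℝ :=
  ∫ p, f p.1 * g (mg S p.1 p.2) ∂((pl E μ).prod (pl E μ))

lemma nice_prod {f g : (E → ℝ) → ℝ} (hf : Nice f) (hg : Nice g) (S : Finset E) :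
    Measurable (fun p : (E → ℝ) × (E → ℝ) => f p.1 * g (mg S p.1 p.2)) ∧
    Integrable (fun p : (E → ℝ) × (E → ℝ) => f p.1 * g (mg S p.1 p.2))
      ((pl E μ).prod (pl E μ)) := by
  obtain ⟨h1, C, h2⟩ := hf
  obtain ⟨h3, D, h4⟩ := hg
  have hm : Measurable (fun p : (E → ℝ) × (E → ℝ) => f p.1 * g (mg S p.1 p.2)) :=
    (h1.comp measurable_fst).mul (h3.comp (mg_meas S))
  refine ⟨hm, Integrable.of_bound hm.aestronglyMeasurable (C * D) (ae_of_all _ fun p => ?_)⟩
  rw [Real.norm_eq_abs, abs_mul]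
  exact mul_le_mul (h2 _) (h4 _) (abs_nonneg _) ((abs_nonneg _).trans (h2 p.1))

lemma QF_eq {f g : (E → ℝ) → ℝ} (hf : Nice f) (hg : Nice g) (S : Finset E) :
    QF μ S f g = ∫ x, f x * Op μ S g x ∂(pl E μ) := by
  unfold QF
  rw [integral_prod _ (nice_prod μ hf hg S).2]
  refine integral_congr_ae (ae_of_all _ fun x => ?_)
  simp only [Op]
  rw [integral_const_mul]

lemma mg_swap (S : Finset E) (x w : E → ℝ) : mg S (mg S x w) (mg S w x) = x := by
  funext s
  by_cases hs : s ∈ S <;> simp [mg, hs]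

lemma QF_symm {f g : (E → ℝ) → ℝ} (hf : Nice f) (hg : Nice g) (S : Finset E) :
    QF μ S f g = QF μ S g f := by
  have h := mp_swap μ S
  have h1 := integral_map h.measurable.aemeasurable (μ := (pl E μ).prod (pl E μ))
    (f := fun p : (E → ℝ) × (E → ℝ) => f p.1 * g (mg S p.1 p.2))
    (nice_prod μ hf hg S).1.aestronglyMeasurable
  rw [h.map_eq] at h1
  unfold QF
  rw [h1]
  refine integral_congr_ae (ae_of_all _ fun p => ?_)
  simp only [mg_swap]
  exact mul_comm _ _

lemma Op_Op {g : (E → ℝ) → ℝ} (hg : Nice g) (A B : Finset E) (x : E → ℝ) :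
    Op μ A (Op μ B g) x = Op μ (A ∪ B) g x := by
  obtain ⟨h3, D, h4⟩ := hg
  have hm : Measurable (fun p : (E → ℝ) × (E → ℝ) => g (mg B (mg A x p.1) p.2)) := by
    refine h3.comp ((mg_meas B).comp (Measurable.prodMk ?_ measurable_snd))
    exact (mg_meas A).comp (measurable_const.prodMk measurable_fst)
  have hi : Integrable (fun p : (E → ℝ) × (E → ℝ) => g (mg B (mg A x p.1) p.2))
      ((pl E μ).prod (pl E μ)) :=
    Integrable.of_bound hm.aestronglyMeasurable D (ae_of_all _ fun p => by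
      rw [Real.norm_eq_abs]; exact h4 _)
  have h1 : Op μ A (Op μ B g) x =
      ∫ p, g (mg B (mg A x p.1) p.2) ∂((pl E μ).prod (pl E μ)) := by
    rw [integral_prod _ hi]
    rfl
  have h := mp_merge μ B
  have h2 := integral_map h.measurable.aemeasurable (μ := (pl E μ).prod (pl E μ))
    (f := fun w : E → ℝ => g (mg (A ∪ B) x w))
    (h3.comp ((mg_meas (A ∪ B)).comp (measurable_const.prodMk measurable_id))).aestronglyMeasurable
  rw [h.map_eq] at h2
  rw [h1]
  unfold Op
  rw [h2]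
  refine integral_congr_ae (ae_of_all _ fun p => ?_)
  show g _ = g _
  congr 1
  funext s
  by_cases hA : s ∈ A <;> by_cases hB : s ∈ B <;> simp [mg, hA, hB]

lemma key {f g : (E → ℝ) → ℝ} (hf : Nice f) (hg : Nice g) (A B : Finset E) :
    ∫ x, Op μ A f x * Op μ B g x ∂(pl E μ) = QF μ (A ∪ B) f g := by
  have h1 : ∫ x, Op μ A f x * Op μ B g x ∂(pl E μ) = QF μ A (Op μ B g) f := by
    rw [QF_eq μ (Op_nice μ hg B) hf]
    refine integral_congr_ae (ae_of_all _ fun p => ?_)
    exact mul_comm _ _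
  rw [h1, QF_symm μ (Op_nice μ hg B) hf, QF_eq μ hf (Op_nice μ hg B), QF_eq μ hf hg]
  refine integral_congr_ae (ae_of_all _ fun p => ?_)
  simp only [Op_Op μ hg]

lemma diff_sq {f : (E → ℝ) → ℝ} (hf : Nice f) {A A' : Finset E} (h : A ⊆ A') :
    ∫ x, (Op μ A f x - Op μ A' f x) * (Op μ A f x - Op μ A' f x) ∂(pl E μ) =
      QF μ A f f - QF μ A' f f := by
  have ha := Op_nice μ hf A
  have hb := Op_nice μ hf A'
  have e1 : ∀ x, (Op μ A f x - Op μ A' f x) * (Op μ A f x - Op μ A' f x) =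
      (Op μ A f x * Op μ A f x - 2 * (Op μ A f x * Op μ A' f x)) + Op μ A' f x * Op μ A' f x :=
    fun x => by ring
  have i1 : Integrable (fun x => Op μ A f x * Op μ A f x - 2 * (Op μ A f x * Op μ A' f x))
      (pl E μ) := ((ha.mul ha).int μ).sub (((ha.mul hb).int μ).const_mul 2)
  simp only [e1]
  rw [integral_add i1 ((hb.mul hb).int μ),
    integral_sub ((ha.mul ha).int μ) (((ha.mul hb).int μ).const_mul 2), integral_const_mul,
    key μ hf hf, key μ hf hf, key μ hf hf, Finset.union_self, Finset.union_self,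
    Finset.union_eq_right.2 h]
  ring

lemma contr {h : (E → ℝ) → ℝ} (hh : Nice h) (B : Finset E) :
    ∫ x, Op μ B h x * Op μ B h x ∂(pl E μ) ≤ ∫ x, h x * h x ∂(pl E μ) := by
  have h1 := key μ hh hh B B
  rw [Finset.union_self, QF_eq μ hh hh] at h1
  have hb := Op_nice μ hh B
  have h2 : ∫ x, 2 * (h x * Op μ B h x) ∂(pl E μ) ≤
      ∫ x, (h x * h x + Op μ B h x * Op μ B h x) ∂(pl E μ) := by
    refine integral_mono (((hh.mul hb).int μ).const_mul 2)
      (((hh.mul hh).int μ).add ((hb.mul hb).int μ)) fun x => ?_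
    show 2 * (h x * Op μ B h x) ≤ h x * h x + Op μ B h x * Op μ B h x
    nlinarith [sq_nonneg (h x - Op μ B h x)]
  rw [integral_const_mul, integral_add ((hh.mul hh).int μ) ((hb.mul hb).int μ)] at h2
  linarith

lemma Op_sub {f g : (E → ℝ) → ℝ} (hf : Nice f) (hg : Nice g) (S : Finset E) (x : E → ℝ) :
    Op μ S (fun y => f y - g y) x = Op μ S f x - Op μ S g x := by
  unfold Op
  have hm : Measurable (fun w : E → ℝ => mg S x w) :=
    (mg_meas S).comp (measurable_const.prodMk measurable_id)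
  refine integral_sub ?_ ?_
  · obtain ⟨h1, C, h2⟩ := hf
    exact Nice.int μ ⟨h1.comp hm, C, fun _ => h2 _⟩
  · obtain ⟨h1, C, h2⟩ := hg
    exact Nice.int μ ⟨h1.comp hm, C, fun _ => h2 _⟩

/-- diminishing returns -/
lemma dim {f : (E → ℝ) → ℝ} (hf : Nice f) {A B : Finset E} (h : A ⊆ B) (e : E) :
    QF μ B f f - QF μ (insert e B) f f ≤ QF μ A f f - QF μ (insert e A) f f := by
  rw [← diff_sq μ hf (Finset.subset_insert e B), ← diff_sq μ hf (Finset.subset_insert e A)]
  have ha := Op_nice μ hf A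
  have hb := Op_nice μ hf (insert e A)
  refine le_trans (le_of_eq ?_) (contr μ (ha.sub hb) B)
  refine integral_congr_ae (ae_of_all _ fun x => ?_)
  have e1 : Op μ B (fun y => Op μ A f y - Op μ (insert e A) f y) x =
      Op μ B f x - Op μ (insert e B) f x := by
    rw [Op_sub μ ha hb, Op_Op μ hf, Op_Op μ hf, Finset.union_eq_left.2 h]
    congr 2
    ext s
    simp only [Finset.mem_union, Finset.mem_insert]
    constructor
    · rintro (h1 | h1 | h1)
      · exact Or.inr h1
      · exact Or.inl h1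
      · exact Or.inr (h h1)
    · rintro (h1 | h1)
      · exact Or.inr (Or.inl h1)
      · exact Or.inl h1
  simp only [e1]

lemma mono1 {f : (E → ℝ) → ℝ} (hf : Nice f) (B : Finset E) (e : E) :
    0 ≤ QF μ B f f - QF μ (insert e B) f f := by
  rw [← diff_sq μ hf (Finset.subset_insert e B)]
  exact integral_nonneg fun x => mul_self_nonneg _

end Pool.Agent.E8helper7.RM
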