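import Mathlib

set_option autoImplicit false

namespace Pool.Agent.E8helper7.RM

variable {E : Type} [Fintype E] [DecidableEq E]

lemma weights (Q : Finset E → ℝ)
    (hd : ∀ (A B : Finset E) (e : E), A ⊆ B → Q B - Q (insert e B) ≤ Q A - Q (insert e A))
    (hm : ∀ (B : Finset E) (e : E), 0 ≤ Q B - Q (insert e B)) (B : Finset E) :
    ∃ δ : E → ℝ, (∀ e, 0 ≤ δ e) ∧ ∑ e ∈ B, δ e = Q ∅ - Q B ∧
      ∀ S ⊆ B, ∑ e ∈ S, δ e ≤ Q ∅ - Q S := by
  induction B using Finset.induction_on with
  | empty =>
    refine ⟨fun _ => 0, fun _ => le_rfl, by simp, fun S hS => ?_⟩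
    rw [Finset.subset_empty.1 hS]; simp
  | insert e B he ih =>
    obtain ⟨δ, h1, h2, h3⟩ := ih
    refine ⟨Function.update δ e (Q B - Q (insert e B)), fun e' => ?_, ?_, fun S hS => ?_⟩
    · by_cases h : e' = e
      · rw [h, Function.update_self]; exact hm B e
      · rw [Function.update_of_ne h]; exact h1 e'
    · rw [Finset.sum_insert he, Function.update_self, Finset.sum_congr rfl (g := δ), h2]
      · ring
      · intro x hx
        have hne : x ≠ e := fun h => he (by rw [← h]; exact hx)
        exact Function.update_of_ne hne _ _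
    · by_cases h : e ∈ S
      · have h4 : S.erase e ⊆ B := by
          intro x hx
          rw [Finset.mem_erase] at hx
          exact (Finset.mem_insert.1 (hS hx.2)).resolve_left hx.1
        have h5 := h3 _ h4
        have h6 := hd _ _ e h4
        rw [Finset.insert_erase h] at h6
        rw [← Finset.add_sum_erase _ _ h, Function.update_self, Finset.sum_congr rfl (g := δ)]
        · linarith
        · intro x hx
          exact Function.update_of_ne (Finset.mem_erase.1 hx).1 _ _
      · have h4 : S ⊆ B := by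
          intro x hx
          exact (Finset.mem_insert.1 (hS hx)).resolve_left (fun h' => h (by rw [← h']; exact hx))
        rw [Finset.sum_congr rfl (g := δ)]
        · exact h3 _ h4
        · intro x hx
          have hne : x ≠ e := fun h' => h (by rw [← h']; exact hx)
          exact Function.update_of_ne hne _ _

lemma average {G : Type} [Fintype G] [Nonempty G] (Q : Finset E → ℝ)
    (hd : ∀ (A B : Finset E) (e : E), A ⊆ B → Q B - Q (insert e B) ≤ Q A - Q (insert e A))
    (hm : ∀ (B : Finset E) (e : E), 0 ≤ Q B - Q (insert e B))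
    (act : G → E → E) (S : Finset E)
    (hQ : ∀ g, Q (Finset.univ.filter fun e => act g e ∈ S) = Q S)
    (c : ℝ) (hc : ∀ e, c * (Fintype.card G : ℝ) ≤
      ((Finset.univ.filter fun g => act g e ∈ S).card : ℝ)) :
    c * (Q ∅ - Q Finset.univ) ≤ Q ∅ - Q S := by
  obtain ⟨δ, h1, h2, h3⟩ := weights Q hd hm Finset.univ
  have h4 : ∑ g : G, ∑ e ∈ Finset.univ.filter (fun e => act g e ∈ S), δ e ≤
      ∑ g : G, (Q ∅ - Q S) := by
    refine Finset.sum_le_sum fun g _ => ?_
    rw [← hQ g]
    exact h3 _ (Finset.subset_univ _)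
  have h5 : ∑ g : G, ∑ e ∈ Finset.univ.filter (fun e => act g e ∈ S), δ e =
      ∑ e : E, ((Finset.univ.filter fun g => act g e ∈ S).card : ℝ) * δ e := by
    simp only [Finset.sum_filter]
    rw [Finset.sum_comm]
    refine Finset.sum_congr rfl fun e _ => ?_
    rw [← Finset.sum_filter, Finset.sum_const, nsmul_eq_mul]
  have h6 : c * (Fintype.card G : ℝ) * (Q ∅ - Q Finset.univ) ≤
      ∑ e : E, ((Finset.univ.filter fun g => act g e ∈ S).card : ℝ) * δ e := by
    rw [← h2, Finset.mul_sum]
    exact Finset.sum_le_sum fun e _ => mul_le_mul_of_nonneg_right (hc e) (h1 e)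
  rw [h5, Finset.sum_const, Finset.card_univ, nsmul_eq_mul] at h4
  have h7 : (0 : ℝ) < Fintype.card G := by exact_mod_cast Fintype.card_pos
  have h8 := h6.trans h4
  have h9 : (Fintype.card G : ℝ) * (c * (Q ∅ - Q Finset.univ)) ≤
      (Fintype.card G : ℝ) * (Q ∅ - Q S) := by linarith
  exact le_of_mul_le_mul_left h9 h7

end Pool.Agent.E8helper7.RM
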