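import Mathlib

set_option autoImplicit false

namespace Pool.Agent.E8helper7.RM

/-- counting permutations which map a position into `S` -/
lemma count_trans {G P : Type} [Group G] [Fintype G] [Fintype P] [DecidableEq P]
    (act : G → P → P) (hmul : ∀ g h p, act (g * h) p = act g (act h p))
    (O : Finset P) (hO : ∀ g, ∀ p ∈ O, act g p ∈ O)
    (hinj : ∀ g, Function.Injective (act g))
    (htr : ∀ p ∈ O, ∀ q ∈ O, ∃ g, act g p = q) (S : Finset P) (e : P) (he : e ∈ O) :
    O.card * (Finset.univ.filter fun g : G => act g e ∈ S).card =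
      Fintype.card G * (S ∩ O).card := by
  have h1 : ∀ q ∈ O, (Finset.univ.filter fun g : G => act g q ∈ S).card =
      (Finset.univ.filter fun g : G => act g e ∈ S).card := by
    intro q hq
    obtain ⟨t, ht⟩ := htr e he q hq
    refine Finset.card_bij (fun g _ => g * t) ?_ ?_ ?_
    · intro g hg
      rw [Finset.mem_filter] at hg ⊢
      refine ⟨Finset.mem_univ _, ?_⟩
      rw [hmul, ht]
      exact hg.2
    · intro a _ b _ hab
      exact mul_right_cancel hab
    · intro b hb
      refine ⟨b * t⁻¹, ?_, by group⟩
      rw [Finset.mem_filter] at hb ⊢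
      refine ⟨Finset.mem_univ _, ?_⟩
      rw [← ht, ← hmul, inv_mul_cancel_right]
      exact hb.2
  have h2 : ∑ q ∈ O, (Finset.univ.filter fun g : G => act g q ∈ S).card =
      O.card * (Finset.univ.filter fun g : G => act g e ∈ S).card := by
    rw [Finset.sum_congr rfl h1, Finset.sum_const, smul_eq_mul]
  rw [← h2]
  have h3 : ∀ g : G, (O.filter fun q => act g q ∈ S).card = (S ∩ O).card := by
    intro g
    have himg : O.image (act g) = O := by
      refine Finset.eq_of_subset_of_card_le ?_ ?_
      · intro x hx
        obtain ⟨y, hy, rfl⟩ := Finset.mem_image.1 hx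
        exact hO g y hy
      · rw [Finset.card_image_of_injective _ (hinj g)]
    have h4 : (O.filter fun q => act g q ∈ S).image (act g) = S ∩ O := by
      ext x
      rw [Finset.mem_image, Finset.mem_inter]
      constructor
      · rintro ⟨y, hy, rfl⟩
        rw [Finset.mem_filter] at hy
        exact ⟨hy.2, hO g y hy.1⟩
      · rintro ⟨hx1, hx2⟩
        rw [← himg, Finset.mem_image] at hx2
        obtain ⟨y, hy, rfl⟩ := hx2
        exact ⟨y, Finset.mem_filter.2 ⟨hy, hx1⟩, rfl⟩
    rw [← h4, Finset.card_image_of_injective _ (hinj g)]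
  have h5 : ∑ q ∈ O, (Finset.univ.filter fun g : G => act g q ∈ S).card =
      ∑ g : G, (O.filter fun q => act g q ∈ S).card := by
    simp only [Finset.card_filter]
    rw [Finset.sum_comm]
  rw [h5, Finset.sum_congr rfl fun g _ => h3 g, Finset.sum_const, Finset.card_univ, smul_eq_mul]

end Pool.Agent.E8helper7.RM
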