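import Pool.Agent.E8helper7.RM.A

set_option autoImplicit false

namespace Pool.Agent.E8helper7.RM

open MeasureTheory Matrix

theorem pi_ac_fin : ∀ (n : ℕ) (μ ν : Measure ℝ) [SigmaFinite μ] [SigmaFinite ν],
    μ ≪ ν → Measure.pi (fun _ : Fin n => μ) ≪ Measure.pi (fun _ : Fin n => ν) := by
  intro n
  induction n with
  | zero =>
    intro μ ν _ _ _
    rw [Measure.pi_of_empty, Measure.pi_of_empty]
  | succ n ih =>
    intro μ ν _ _ h
    have h1 := measurePreserving_piFinSuccAbove (fun _ : Fin (n + 1) => μ) 0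
    have h2 := measurePreserving_piFinSuccAbove (fun _ : Fin (n + 1) => ν) 0
    have h3 := (h1.symm (MeasurableEquiv.piFinSuccAbove (fun _ : Fin (n + 1) => ℝ) 0)).map_eq
    have h4 := (h2.symm (MeasurableEquiv.piFinSuccAbove (fun _ : Fin (n + 1) => ℝ) 0)).map_eq
    rw [← h3, ← h4]
    exact (h.prod (ih μ ν h)).map (MeasurableEquiv.measurable _)

theorem pi_ac {E : Type} [Fintype E] (μ ν : Measure ℝ) [SigmaFinite μ] [SigmaFinite ν]
    (h : μ ≪ ν) : Measure.pi (fun _ : E => μ) ≪ Measure.pi (fun _ : E => ν) := by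
  have e := (Fintype.equivFin E).symm
  have h1 := measurePreserving_piCongrLeft (fun _ : E => μ) e
  have h2 := measurePreserving_piCongrLeft (fun _ : E => ν) e
  rw [← h1.map_eq, ← h2.map_eq]
  exact (pi_ac_fin _ μ ν h).map (MeasurableEquiv.measurable _)

variable {n : ℕ}

/-- the quadratic form -/
def qf (y : Sym2 (Fin n) → ℝ) (a : Fin n → ℝ) : ℝ := ∑ i, ∑ j, y s(i, j) * (a i * a j)

/-- the matrix times a vector -/
def mv (y : Sym2 (Fin n) → ℝ) (a : Fin n → ℝ) : Fin n → ℝ := fun i => ∑ j, y s(i, j) * a j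

lemma unit_le {a : Fin n → ℝ} (h : a ⬝ᵥ a = 1) (i : Fin n) : |a i| ≤ 1 := by
  have h2 : a i * a i ≤ a ⬝ᵥ a := by
    unfold dotProduct
    exact Finset.single_le_sum (f := fun k => a k * a k) (fun k _ => mul_self_nonneg _)
      (Finset.mem_univ i)
  rw [abs_le]
  constructor <;> nlinarith

lemma exists_max (hn : 0 < n) (y : Sym2 (Fin n) → ℝ) :
    ∃ w : Fin n → ℝ, w ⬝ᵥ w = 1 ∧ ∀ u : Fin n → ℝ, u ⬝ᵥ u = 1 → qf y u ≤ qf y w := by
  have hc : IsCompact {a : Fin n → ℝ | a ⬝ᵥ a = 1} := by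
    refine Metric.isCompact_of_isClosed_isBounded ?_ ?_
    · refine isClosed_eq ?_ continuous_const
      unfold dotProduct
      fun_prop
    · refine (Metric.isBounded_closedBall (x := (0 : Fin n → ℝ)) (r := 1)).subset fun a ha => ?_
      rw [mem_closedBall_zero_iff, pi_norm_le_iff_of_nonneg zero_le_one]
      intro i
      exact unit_le ha i
  have hne : {a : Fin n → ℝ | a ⬝ᵥ a = 1}.Nonempty := by
    refine ⟨Pi.single ⟨0, hn⟩ 1, ?_⟩
    simp
  have hcont : Continuous (qf y) := by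
    unfold qf
    fun_prop
  obtain ⟨w, hw, hmax⟩ := hc.exists_isMaxOn hne hcont.continuousOn
  exact ⟨w, hw, fun u hu => hmax hu⟩

/-- the maximum of the quadratic form -/
noncomputable def lam (hn : 0 < n) (y : Sym2 (Fin n) → ℝ) : ℝ := qf y (exists_max hn y).choose

lemma lam_ge (hn : 0 < n) (y : Sym2 (Fin n) → ℝ) {u : Fin n → ℝ} (hu : u ⬝ᵥ u = 1) :
    qf y u ≤ lam hn y := (exists_max hn y).choose_spec.2 u hu

lemma qf_sub (x y : Sym2 (Fin n) → ℝ) (a : Fin n → ℝ) : qf (x - y) a = qf x a - qf y a := by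
  unfold qf
  simp only [← Finset.sum_sub_distrib, Pi.sub_apply, sub_mul]

lemma qf_le (y : Sym2 (Fin n) → ℝ) {a : Fin n → ℝ} (ha : a ⬝ᵥ a = 1) :
    qf y a ≤ (n * n : ℝ) * ‖y‖ := by
  have h1 : ∀ i j : Fin n, y s(i, j) * (a i * a j) ≤ ‖y‖ := by
    intro i j
    have h2 : |y s(i, j)| ≤ ‖y‖ := norm_le_pi_norm y _
    have h3 : |a i * a j| ≤ 1 := by
      rw [abs_mul]
      exact mul_le_one₀ (unit_le ha i) (abs_nonneg _) (unit_le ha j)
    calc y s(i, j) * (a i * a j) ≤ |y s(i, j) * (a i * a j)| := le_abs_self _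
      _ = |y s(i, j)| * |a i * a j| := abs_mul _ _
      _ ≤ ‖y‖ * 1 := mul_le_mul h2 h3 (abs_nonneg _) (norm_nonneg _)
      _ = ‖y‖ := mul_one _
  calc qf y a ≤ ∑ i : Fin n, ∑ j : Fin n, ‖y‖ :=
        Finset.sum_le_sum fun i _ => Finset.sum_le_sum fun j _ => h1 i j
    _ = (n * n : ℝ) * ‖y‖ := by
        simp only [Finset.sum_const, Finset.card_univ, Fintype.card_fin, nsmul_eq_mul]
        ring

lemma lam_lip (hn : 0 < n) : LipschitzWith (n * n : NNReal) (lam hn) := by
  refine LipschitzWith.of_le_add_mul _ fun x y => ?_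
  have hw := (exists_max hn x).choose_spec
  have h1 := qf_le (x - y) hw.1
  rw [qf_sub] at h1
  have h2 := lam_ge hn y hw.1
  rw [dist_eq_norm]
  show qf x (exists_max hn x).choose ≤ _
  push_cast
  linarith

/-- the form as a function of the matrix -/
noncomputable def Lf (a : Fin n → ℝ) : (Sym2 (Fin n) → ℝ) →L[ℝ] ℝ :=
  LinearMap.toContinuousLinearMap
    { toFun := fun y => qf y a
      map_add' := fun x y => by
        unfold qf
        simp only [← Finset.sum_add_distrib, Pi.add_apply, add_mul]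
      map_smul' := fun m x => by
        unfold qf
        simp only [Finset.mul_sum, Pi.smul_apply, smul_eq_mul, RingHom.id_apply, mul_assoc] }

lemma qf_eq (y : Sym2 (Fin n) → ℝ) (a : Fin n → ℝ) : qf y a = a ⬝ᵥ mv y a := by
  unfold qf mv dotProduct
  refine Finset.sum_congr rfl fun i _ => ?_
  rw [Finset.mul_sum]
  exact Finset.sum_congr rfl fun j _ => by ring

lemma qf_add (y : Sym2 (Fin n) → ℝ) (a z : Fin n → ℝ) (t : ℝ) :
    qf y (a + t • z) = qf y a + 2 * t * (z ⬝ᵥ mv y a) + t ^ 2 * qf y z := by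
  have hs : ∑ i, ∑ j, y s(i, j) * (a i * z j) = ∑ i, ∑ j, y s(i, j) * (z i * a j) := by
    rw [Finset.sum_comm]
    refine Finset.sum_congr rfl fun i _ => Finset.sum_congr rfl fun j _ => ?_
    rw [Sym2.eq_swap]; ring
  have h2 : z ⬝ᵥ mv y a = ∑ i, ∑ j, y s(i, j) * (z i * a j) := by
    unfold mv dotProduct
    refine Finset.sum_congr rfl fun i _ => ?_
    rw [Finset.mul_sum]
    exact Finset.sum_congr rfl fun j _ => by ring
  have h3 : qf y (a + t • z) = qf y a + t * (∑ i, ∑ j, y s(i, j) * (a i * z j)) +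
      t * (∑ i, ∑ j, y s(i, j) * (z i * a j)) + t ^ 2 * qf y z := by
    unfold qf
    simp only [Finset.mul_sum, ← Finset.sum_add_distrib, Pi.add_apply, Pi.smul_apply, smul_eq_mul]
    refine Finset.sum_congr rfl fun i _ => Finset.sum_congr rfl fun j _ => ?_
    ring
  rw [h3, hs, h2]
  ring

lemma qf_smul (y : Sym2 (Fin n) → ℝ) (a : Fin n → ℝ) (t : ℝ) :
    qf y (t • a) = t ^ 2 * qf y a := by
  unfold qf
  simp only [Finset.mul_sum, Pi.smul_apply, smul_eq_mul]
  refine Finset.sum_congr rfl fun i _ => Finset.sum_congr rfl fun j _ => ?_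
  ring

lemma qf_le_lam (hn : 0 < n) (y : Sym2 (Fin n) → ℝ) (u : Fin n → ℝ) :
    qf y u ≤ lam hn y * (u ⬝ᵥ u) := by
  by_cases h0 : u ⬝ᵥ u = 0
  · have hu : u = 0 := dotProduct_self_eq_zero.1 h0
    subst hu
    simp [qf]
  · have hp : 0 < u ⬝ᵥ u := lt_of_le_of_ne
      (Finset.sum_nonneg fun i _ => mul_self_nonneg (u i)) (Ne.symm h0)
    set r := Real.sqrt (u ⬝ᵥ u) with hr
    have hr0 : 0 < r := Real.sqrt_pos.2 hp
    have hrr : r * r = u ⬝ᵥ u := Real.mul_self_sqrt hp.le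
    have h1 : (r⁻¹ • u) ⬝ᵥ (r⁻¹ • u) = 1 := by
      rw [smul_dotProduct, dotProduct_smul, ← hrr, smul_eq_mul, smul_eq_mul]
      field_simp
    have h2 := lam_ge hn y h1
    rw [qf_smul] at h2
    rw [← hrr]
    have h3 : qf y u = r * r * ((r⁻¹) ^ 2 * qf y u) := by
      field_simp
    rw [h3, mul_comm (lam hn y)]
    exact mul_le_mul_of_nonneg_left h2 (mul_self_nonneg r)

/-- the value of the form at a top eigenvector is the maximum -/
lemma top_val (hn : 0 < n) (y : Sym2 (Fin n) → ℝ) {a : Fin n → ℝ} (ha : a ⬝ᵥ a = 1) {l : ℝ}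
    (hl : mv y a = l • a)
    (hm : ∀ (m : ℝ) (w : Fin n → ℝ), w ≠ 0 → mv y w = m • w → m ≤ l) :
    qf y a = lam hn y := by
  refine le_antisymm (lam_ge hn y ha) ?_
  have h1 : qf y a = l := by
    rw [qf_eq, hl, dotProduct_smul, ha, smul_eq_mul, mul_one]
  rw [h1]
  set w := (exists_max hn y).choose with hw
  have hw1 : w ⬝ᵥ w = 1 := (exists_max hn y).choose_spec.1
  have hwl : qf y w = lam hn y := rfl
  refine hm _ w (fun h0 => ?_) ?_
  · rw [h0, dotProduct_zero] at hw1
    exact zero_ne_one hw1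
  · -- the gradient vanishes
    have key : ∀ z : Fin n → ℝ, z ⬝ᵥ mv y w = lam hn y * (z ⬝ᵥ w) := by
      intro z
      have h2 : ∀ t : ℝ, 0 ≤ 2 * t * (lam hn y * (z ⬝ᵥ w) - z ⬝ᵥ mv y w) +
          t ^ 2 * (lam hn y * (z ⬝ᵥ z) - qf y z) := by
        intro t
        have h3 := qf_le_lam hn y (w + t • z)
        rw [qf_add, hwl] at h3
        have h4 : (w + t • z) ⬝ᵥ (w + t • z) = 1 + 2 * t * (z ⬝ᵥ w) + t ^ 2 * (z ⬝ᵥ z) := by
          rw [add_dotProduct, dotProduct_add, dotProduct_add, hw1, smul_dotProduct,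
            smul_dotProduct, dotProduct_smul, dotProduct_smul, dotProduct_comm w z]
          simp only [smul_eq_mul]
          ring
        rw [h4] at h3
        linarith
      set P := lam hn y * (z ⬝ᵥ w) - z ⬝ᵥ mv y w with hP
      set N := lam hn y * (z ⬝ᵥ z) - qf y z with hN
      have hN0 : 0 ≤ N := by
        have := qf_le_lam hn y z
        linarith
      have hP0 : P = 0 := by
        by_contra hne
        have h5 := h2 (-P / (N + 1))
        have h6 : 2 * (-P / (N + 1)) * P + (-P / (N + 1)) ^ 2 * N =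
            -(P ^ 2 * (N + 2)) / (N + 1) ^ 2 := by
          field_simp
          ring
        rw [h6] at h5
        have h7 : 0 < P ^ 2 := by positivity
        have h8 : -(P ^ 2 * (N + 2)) / (N + 1) ^ 2 < 0 := by
          apply div_neg_of_neg_of_pos
          · nlinarith
          · positivity
        linarith
      linarith
    funext i
    have := key (Pi.single i 1)
    rw [single_dotProduct, single_dotProduct, one_mul, one_mul] at this
    exact this

theorem simple_of_ac (hn : 0 < n) (μ : Measure ℝ) [IsProbabilityMeasure μ] (hμ : μ ≪ volume) :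
    ∀ᵐ y ∂(pl (Sym2 (Fin n)) μ), ∀ a b : Fin n → ℝ,
      (a ⬝ᵥ a = 1 ∧ ∃ l : ℝ, mv y a = l • a ∧
        ∀ (m : ℝ) (w : Fin n → ℝ), w ≠ 0 → mv y w = m • w → m ≤ l) →
      (b ⬝ᵥ b = 1 ∧ ∃ l : ℝ, mv y b = l • b ∧
        ∀ (m : ℝ) (w : Fin n → ℝ), w ≠ 0 → mv y w = m • w → m ≤ l) → b = a ∨ b = -a := by
  have h1 : ∀ᵐ y ∂(volume : Measure (Sym2 (Fin n) → ℝ)), DifferentiableAt ℝ (lam hn) y :=
    (lam_lip hn).ae_differentiableAt
  have h2 : pl (Sym2 (Fin n)) μ ≪ (volume : Measure (Sym2 (Fin n) → ℝ)) := pi_ac μ volume hμ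
  filter_upwards [h2.ae_le h1] with y hy a b ha hb
  have hd : ∀ c : Fin n → ℝ, c ⬝ᵥ c = 1 → qf y c = lam hn y → fderiv ℝ (lam hn) y = Lf c := by
    intro c hc hcl
    have h3 : HasFDerivAt (fun z => lam hn z - Lf c z) (fderiv ℝ (lam hn) y - Lf c) y :=
      hy.hasFDerivAt.sub (Lf c).hasFDerivAt
    have h4 : IsLocalMin (fun z => lam hn z - Lf c z) y := by
      refine Filter.Eventually.of_forall fun z => ?_
      have e1 : Lf c y = lam hn y := hcl
      have e2 : Lf c z ≤ lam hn z := lam_ge hn z hc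
      show lam hn y - Lf c y ≤ lam hn z - Lf c z
      linarith
    exact sub_eq_zero.1 (h4.hasFDerivAt_eq_zero h3)
  obtain ⟨ha1, l, hl, hm⟩ := ha
  obtain ⟨hb1, l', hl', hm'⟩ := hb
  have e := (hd a ha1 (top_val hn y ha1 hl hm)).symm.trans
    (hd b hb1 (top_val hn y hb1 hl' hm'))
  set h : Sym2 (Fin n) → ℝ := Sym2.lift ⟨fun i j => a i * a j - b i * b j, fun i j => by ring⟩
    with hh
  have e1 : qf h a = qf h b := by
    have := congrArg (fun L : (Sym2 (Fin n) → ℝ) →L[ℝ] ℝ => L h) e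
    exact this
  have e2 : ∑ i, ∑ j, (a i * a j - b i * b j) * (a i * a j - b i * b j) = 0 := by
    have e3 : ∑ i, ∑ j, (a i * a j - b i * b j) * (a i * a j - b i * b j) = qf h a - qf h b := by
      unfold qf
      simp only [← Finset.sum_sub_distrib]
      refine Finset.sum_congr rfl fun i _ => Finset.sum_congr rfl fun j _ => ?_
      rw [hh, Sym2.lift_mk]
      ring
    rw [e3, e1, sub_self]
  have e4 : ∀ i j, a i * a j = b i * b j := by
    intro i j
    have f1 := (Finset.sum_eq_zero_iff_of_nonneg (fun i _ =>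
      Finset.sum_nonneg fun j _ => mul_self_nonneg _)).1 e2 i (Finset.mem_univ i)
    have f2 := (Finset.sum_eq_zero_iff_of_nonneg (fun j _ => mul_self_nonneg _)).1 f1 j
      (Finset.mem_univ j)
    exact sub_eq_zero.1 (mul_self_eq_zero.1 f2)
  have e5 : b = (a ⬝ᵥ b) • a := by
    funext i
    have f1 : ∑ j, a i * a j * b j = ∑ j, b i * b j * b j :=
      Finset.sum_congr rfl fun j _ => by rw [e4]
    have f2 : ∑ j, a i * a j * b j = a i * (a ⬝ᵥ b) := by
      unfold dotProduct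
      rw [Finset.mul_sum]
      exact Finset.sum_congr rfl fun j _ => by ring
    have f3 : ∑ j, b i * b j * b j = b i * (b ⬝ᵥ b) := by
      unfold dotProduct
      rw [Finset.mul_sum]
      exact Finset.sum_congr rfl fun j _ => by ring
    rw [f2, f3, hb1, mul_one] at f1
    rw [Pi.smul_apply, smul_eq_mul, ← f1, mul_comm]
  have e6 : (a ⬝ᵥ b) * (a ⬝ᵥ b) = 1 := by
    have f1 : b ⬝ᵥ b = (a ⬝ᵥ b) * (a ⬝ᵥ b) := by
      conv_lhs => rw [e5]
      rw [smul_dotProduct, dotProduct_smul, ha1]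
      simp
    rw [← f1, hb1]
  rcases mul_self_eq_one_iff.1 e6 with h | h
  · left
    rw [e5, h, one_smul]
  · right
    rw [e5, h, neg_one_smul]

end Pool.Agent.E8helper7.RM
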